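import Pool.Agent.KS6_66.EN.E

/-!
# The two-weight Bergman projection: norm, essential norm and compactness

`P(f σ)(z) = ∫ f(ζ) / (1 - z conj ζ)^2 dσ(ζ)` is the Bergman operator. For finite Borel measures `σ`, `w`
on the open unit disc the theorem gives

* the adjoint of a bounded Bergman operator `T : L²(σ) → L²(w)` is the Bergman operator
  `L²(w) → L²(σ)`;
* `T` exists if and only if the two testing conditions on Carleson boxes hold, and its norm is comparable
  to the best constant in them, with a universal constant;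
* the essential norm of `T` (the distance to the compact operators) is comparable, with the same universal
  constant, to the best constant in the testing conditions on the parts of height at most `δ` of the
  Carleson boxes, `δ → 0`; the lower bound holds for all Borel sets near the circle, and has the
  constant `1`;
* `T` is compact if and only if the constants in these testing conditions tend to `0` with `δ`.

For the weights of the problem this contains the equivalence of (B) and (T), and applies to the measures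
`σ dA`, `w dA`.

The boundedness comes from the earlier theorem `UniformMeasures` (`Pool.Graph.R_seed8`); it is applied to
the restrictions of the measures to `{1 - |z| ≤ δ}`, and the remaining part of the operator is
a limit of operators of finite rank (`Pool.Agent.KS6_66.EN`).
-/

set_option autoImplicit false

open MeasureTheory Set Filter
open scoped ENNReal Topology

namespace Pool.Agent.Results.MP_c45a97_an.EssentialNorm

open Pool.Agent.Helper807.BT Pool.Agent.Y308.BQ Pool.Agent.KS6_66.EN

noncomputable section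

/-- The Hilbert space `L²(μ)`. -/
def L2 (μ : Measure ℂ) : Type := Lp ℂ 2 μ

instance (μ : Measure ℂ) : NormedAddCommGroup (L2 μ) :=
  inferInstanceAs (NormedAddCommGroup (Lp ℂ 2 μ))

instance (μ : Measure ℂ) : InnerProductSpace ℂ (L2 μ) :=
  inferInstanceAs (InnerProductSpace ℂ (Lp ℂ 2 μ))

instance (μ : Measure ℂ) : CompleteSpace (L2 μ) := inferInstanceAs (CompleteSpace (Lp ℂ 2 μ))

/-- The bounded operators from `L²(σ)` to `L²(w)`. -/
abbrev Op (σ w : Measure ℂ) : Type := L2 σ →L[ℂ] L2 w

/-- `f ∈ L²(μ)` as an element of Mathlib's `Lp ℂ 2 μ`. -/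
def toLp2 {μ : Measure ℂ} (f : L2 μ) : Lp ℂ 2 μ := f

/-- `f ∈ L²(μ)` as a function. -/
def fn {μ : Measure ℂ} (f : L2 μ) : ℂ → ℂ := toLp2 f

/-- `T` is the Bergman operator `f ↦ P(f σ)` from `L²(σ)` to `L²(w)`. -/
def IsBergman (σ w : Measure ℂ) (T : Op σ w) : Prop := ∀ f : L2 σ, fn (T f) =ᵐ[w] PM σ (fn f)

/-- `T'` is the adjoint of `T`. -/
def IsAdjoint {σ w : Measure ℂ} (T : Op σ w) (T' : Op w σ) : Prop :=
  ∀ (g : L2 w) (f : L2 σ), inner ℂ (T' g) f = inner ℂ g (T f)

/-- The essential norm: the distance to the compact operators. -/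
def essentialNorm {σ w : Measure ℂ} (T : Op σ w) : ℝ :=
  Metric.infDist T {S : Op σ w | IsCompactOperator S}

/-- The norm, the essential norm and the compactness of the Bergman operator `T`. -/
def Theory (κ : ℝ) {σ w : Measure ℂ} (T : Op σ w) : Prop :=
  (Test σ w ‖T‖ ∧ ∀ C : ℝ, 0 < C → Test σ w C → ‖T‖ ≤ κ * C) ∧
  (∀ C : ℝ, essentialNorm T < C → ∃ δ : ℝ, 0 < δ ∧ AllSets σ w δ C) ∧
  (∀ C : ℝ, 0 < C → (∃ δ : ℝ, 0 < δ ∧ Flat σ w δ C) → essentialNorm T ≤ κ * C) ∧
  (IsCompactOperator T ↔ ∀ C : ℝ, 0 < C → ∃ δ : ℝ, 0 < δ ∧ Flat σ w δ C)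

/-- **Two-weight theory of the Bergman projection.** -/
theorem result : ∃ κ : ℝ, 0 < κ ∧
    -- finite measures on the open unit disc
    (∀ σ w : Measure ℂ, OnDisc σ → OnDisc w →
      ((∃ T : Op σ w, IsBergman σ w T) ↔ ∃ C : ℝ, Test σ w C) ∧
      ∀ T : Op σ w, IsBergman σ w T →
        (∃ T' : Op w σ, IsBergman w σ T' ∧ IsAdjoint T T') ∧ Theory κ T) ∧
    -- weights on the disc
    (∀ w σ : ℂ → ℝ, IsWeight w → IsWeight σ →
      (CondB w σ ↔ CondT w σ) ∧
      (CondB w σ → OnDisc (sm σ) ∧ OnDisc (sm w) ∧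
        (∀ F : ℂ → ℂ, normL2 σ F = nrm (sm σ) F ∧ normL2 w F = nrm (sm w) F) ∧
        (∀ (f : ℂ → ℂ) (z : ℂ), ‖z‖ < 1 →
          PM (sm σ) f z = bergP (fun ζ => (σ ζ : ℂ) * f ζ) z) ∧
        ∃ T : Op (sm σ) (sm w), IsBergman (sm σ) (sm w) T)) := by
  obtain ⟨κ, hκ, h1, h2⟩ := Pool.Agent.KS6_66.EN.main
  refine ⟨κ, hκ, fun σ w hσ hw => ⟨(h1 σ w hσ hw).1, fun T hT => ?_⟩, h2⟩
  obtain ⟨h3, h4⟩ := (h1 σ w hσ hw).2 T hT
  refine ⟨⟨ContinuousLinearMap.adjoint T, h3, fun g f => ?_⟩, h4⟩
  exact ContinuousLinearMap.adjoint_inner_left T f g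

end

end Pool.Agent.Results.MP_c45a97_an.EssentialNorm
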